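import Pool.Agent.H564R2.QF.Defs

/-!
# De Morgan formulas with guess bits
-/

namespace H632.GH

open Pool.Agent.H564R2.QF (Fml)

/-- Families of predicates decided by De Morgan formulas `F (x, y)` of size `O(s(n))` with
`O(m(n))` guess bits `y`: `f x` holds if and only if some guess is accepted. -/
def NPc (m s : ℕ → ℕ) : Set (∀ n : ℕ, (Fin n → Bool) → Prop) :=
  {f | ∃ c : ℕ, ∀ n, ∃ b ≤ c * m n, ∃ φ : Fml (Fin n ⊕ Fin b), φ.size ≤ c * s n ∧
    ∀ x, f n x ↔ ∃ y : Fin b → Bool, φ.eval (Sum.elim x y) = true}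

/-- The same with unambiguous acceptance: exactly one guess is accepted if `f x` holds, and none
otherwise. -/
def UPc (m s : ℕ → ℕ) : Set (∀ n : ℕ, (Fin n → Bool) → Prop) :=
  {f | ∃ c : ℕ, ∀ n, ∃ b ≤ c * m n, ∃ φ : Fml (Fin n ⊕ Fin b), φ.size ≤ c * s n ∧
    ∀ x, (f n x → ∃! y : Fin b → Bool, φ.eval (Sum.elim x y) = true) ∧
      (¬ f n x → ∀ y : Fin b → Bool, φ.eval (Sum.elim x y) = false)}

/-- The same with acceptance by an arbitrary weighted threshold: real weights of the guesses and a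
real threshold, chosen for each `n`. -/
def THRc (m s : ℕ → ℕ) : Set (∀ n : ℕ, (Fin n → Bool) → Prop) :=
  {f | ∃ c : ℕ, ∀ n, ∃ b ≤ c * m n, ∃ φ : Fml (Fin n ⊕ Fin b), φ.size ≤ c * s n ∧
    ∃ (a : (Fin b → Bool) → ℝ) (θ : ℝ), ∀ x,
      f n x ↔ θ < ∑ y, a y * (if φ.eval (Sum.elim x y) = true then 1 else 0)}

end H632.GH
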