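import Pool.Agent.H632R2.GH.Defs
import Pool.Agent.H599R2.QB.Thr
import Pool.Agent.H599R2.QB.QFml2

/-!
# The hierarchy in the number of guess bits for De Morgan formulas
-/

namespace H632.GH

open Finset H599.QB Filter
open Pool.Agent.H564R2.QF (Fml)

/-- substitution of leaves by formulas -/
def subst {V W : Type} (σ : V → Fml W) : Fml V → Fml W
  | .const b => .const b
  | .var v => σ v
  | .neg φ => .neg (subst σ φ)
  | .and φ ψ => .and (subst σ φ) (subst σ ψ)
  | .or φ ψ => .or (subst σ φ) (subst σ ψ)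

theorem subst_eval {V W : Type} (σ : V → Fml W) (z : W → Bool) (φ : Fml V) :
    (subst σ φ).eval z = φ.eval fun v => (σ v).eval z := by
  induction φ with
  | const b => rfl
  | var v => rfl
  | neg φ ih => simp only [subst, Fml.eval, ih]
  | and φ ψ h1 h2 => simp only [subst, Fml.eval, h1, h2]
  | or φ ψ h1 h2 => simp only [subst, Fml.eval, h1, h2]

theorem subst_size {V W : Type} (σ : V → Fml W) (h : ∀ v, (σ v).size ≤ 1) (φ : Fml V) :
    (subst σ φ).size ≤ φ.size := by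
  induction φ with
  | const b => exact le_refl _
  | var v => exact h v
  | neg φ ih => exact ih
  | and φ ψ h1 h2 => exact Nat.add_le_add h1 h2
  | or φ ψ h1 h2 => exact Nat.add_le_add h1 h2

/-- the number of ones among the first `N` bits is odd -/
def par (N n : ℕ) (x : Fin n → Bool) : Prop :=
  Odd (univ.filter fun i : Fin n => (i : ℕ) < N ∧ x i = true).card

theorem par_ext {N n : ℕ} (h : N ≤ n) (z : Fin N → Bool) :
    par N n (fun i => if hi : (i : ℕ) < N then z ⟨i, hi⟩ else false) ↔ Odd (ones z) := by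
  unfold par ones
  have h1 : (univ.filter fun i : Fin n => (i : ℕ) < N ∧
      (if hi : (i : ℕ) < N then z ⟨i, hi⟩ else false) = true).card
      = (univ.filter fun i => z i = true).card := by
    symm
    refine Finset.card_bij (fun i _ => ⟨i, i.2.trans_le h⟩) ?_ ?_ ?_
    · intro i hi
      rw [Finset.mem_filter] at hi ⊢
      refine ⟨Finset.mem_univ _, i.2, ?_⟩
      rw [dif_pos (show ((⟨i, i.2.trans_le h⟩ : Fin n) : ℕ) < N from i.2)]
      exact hi.2
    · intro i _ j _ hij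
      rw [Fin.mk.injEq] at hij
      exact Fin.ext hij
    · intro i hi
      rw [Finset.mem_filter] at hi
      obtain ⟨_, hiN, hi2⟩ := hi
      rw [dif_pos hiN] at hi2
      exact ⟨⟨i, hiN⟩, Finset.mem_filter.2 ⟨Finset.mem_univ _, hi2⟩, rfl⟩
  rw [h1]

theorem par_restr {N n : ℕ} (h : N ≤ n) (x : Fin n → Bool) :
    par N n x ↔ Odd (ones fun i : Fin N => x ⟨i, i.2.trans_le h⟩) := by
  rw [← par_ext h (fun i : Fin N => x ⟨i, i.2.trans_le h⟩)]
  unfold par
  have : (univ.filter fun i : Fin n => (i : ℕ) < N ∧ x i = true)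
      = univ.filter fun i : Fin n => (i : ℕ) < N ∧
        (if hi : (i : ℕ) < N then x ⟨i, (show i < n from i.2)⟩ else false) = true := by
    ext i
    rw [Finset.mem_filter, Finset.mem_filter]
    constructor
    · rintro ⟨h1, h2, h3⟩
      exact ⟨h1, h2, by rw [dif_pos h2]; exact h3⟩
    · rintro ⟨h1, h2, h3⟩
      rw [dif_pos h2] at h3
      exact ⟨h1, h2, h3⟩
  rw [this]

/-- upper bound -/
theorem par_upper {N n m : ℕ} (h : N ≤ n) (hN : 0 < N) :
    ∃ b ≤ m, ∃ φ : Fml (Fin n ⊕ Fin b), (φ.size ≤ 64 * N ∨ (m + 1) * φ.size ≤ 64 * N ^ 2) ∧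
    ∀ x, (par N n x → ∃! y : Fin b → Bool, φ.eval (Sum.elim x y) = true) ∧
      (¬ par N n x → ∀ y : Fin b → Bool, φ.eval (Sum.elim x y) = false) := by
  obtain ⟨b, hb, hbN, hb2⟩ : ∃ b ≤ m, b < N ∧ (b = m ∨ b + 1 = N) := by
    rcases Nat.lt_or_ge m N with h1 | h1
    · exact ⟨m, le_refl _, h1, Or.inl rfl⟩
    · exact ⟨N - 1, by omega, by omega, Or.inr (by omega)⟩
  obtain ⟨φ, h1, h2⟩ := nondet N b hbN
  obtain ⟨σ, hσ⟩ : ∃ σ : Fin N ⊕ Fin b → Fml (Fin n ⊕ Fin b),
      σ = Sum.elim (fun i => Fml.var (Sum.inl ⟨i, i.2.trans_le h⟩)) fun j => Fml.var (Sum.inr j) :=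
    ⟨_, rfl⟩
  have hsize : (subst σ φ).size ≤ φ.size := subst_size σ (fun v => by
    rw [hσ]; rcases v with v | v <;> exact le_refl _) φ
  have heval : ∀ (x : Fin n → Bool) (y : Fin b → Bool), (subst σ φ).eval (Sum.elim x y)
      = φ.eval (Sum.elim (fun i : Fin N => x ⟨i, i.2.trans_le h⟩) y) := by
    intro x y
    rw [subst_eval]
    congr 1
    funext v
    rw [hσ]
    rcases v with v | v <;> rfl
  refine ⟨b, hb, subst σ φ, ?_, fun x => ?_⟩
  · rcases hb2 with h3 | h3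
    · right
      rw [← h3]
      exact (Nat.mul_le_mul_left _ hsize).trans h1
    · left
      rw [h3] at h1
      have h4 : N * φ.size ≤ N * (64 * N) := by
        calc N * φ.size ≤ 64 * N ^ 2 := h1
          _ = _ := by ring
      exact hsize.trans (Nat.le_of_mul_le_mul_left h4 hN)
  · simp only [heval]
    rw [par_restr h]
    exact h2 _

/-- lower bound -/
theorem par_lower {N n b : ℕ} (h : N ≤ n) (hN : 0 < N) (φ : Fml (Fin n ⊕ Fin b))
    (a : (Fin b → Bool) → ℝ) (θ : ℝ)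
    (hf : ∀ x, par N n x ↔ θ < ∑ y, a y * (if φ.eval (Sum.elim x y) = true then 1 else 0)) :
    N ^ 2 ≤ 600000000000 * φ.size * (b + 1) := by
  -- leaves
  have hx : ∀ i : Fin N, ∃ g : GLeaf N b 1, ∀ y x, g.1 y x = x i := fun i =>
    ⟨⟨fun _ x => x i, fun y => ⟨MvPolynomial.X i, (MvPolynomial.totalDegree_X i).le, fun x => by
      rw [MvPolynomial.eval_X]⟩⟩, fun _ _ => rfl⟩
  have hy : ∀ j : Fin b, ∃ g : GLeaf N b 1, ∀ y x, g.1 y x = y j := fun j =>
    ⟨⟨fun y _ => y j, fun y => ⟨MvPolynomial.C (if y j then 1 else 0), by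
      rw [MvPolynomial.totalDegree_C]; exact Nat.zero_le _, fun x => by
      rw [MvPolynomial.eval_C]⟩⟩, fun _ _ => rfl⟩
  choose gx hgx using hx
  choose gy hgy using hy
  obtain ⟨σ, hσ⟩ : ∃ σ : Fin n ⊕ Fin b → Fml (GLeaf N b 1),
      σ = Sum.elim
        (fun i : Fin n => if hi : (i : ℕ) < N then Fml.var (gx ⟨i, hi⟩) else Fml.const false)
        fun j => Fml.var (gy j) := ⟨_, rfl⟩
  have hsize : (subst σ φ).size ≤ φ.size := subst_size σ (fun v => by
    rw [hσ]
    rcases v with v | v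
    · rw [Sum.elim_inl]
      split_ifs
      · exact le_refl _
      · exact Nat.zero_le _
    · exact le_refl _) φ
  have heval : ∀ (z : Fin N → Bool) (y : Fin b → Bool),
      (subst σ φ).eval (fun g => g.1 y z) = φ.eval (Sum.elim
        (fun i : Fin n => if hi : (i : ℕ) < N then z ⟨i, hi⟩ else false) y) := by
    intro z y
    rw [subst_eval]
    congr 1
    funext v
    rw [hσ]
    rcases v with v | v
    · rw [Sum.elim_inl, Sum.elim_inl]
      split_ifs with hi
      · exact hgx _ _ _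
      · rfl
    · exact hgy _ _ _
  have h1 := family_lower hN (subst σ φ) a θ (fun z => by
    rw [← par_ext h z, hf]
    simp only [heval])
  have h2 : ((N ^ 2 : ℕ) : ℝ) ≤ ((600000000000 * φ.size * (b + 1) : ℕ) : ℝ) := by
    push_cast
    refine h1.trans ?_
    have h3 : ((subst σ φ).size : ℝ) ≤ φ.size := by exact_mod_cast hsize
    have h4 : (0 : ℝ) ≤ (b : ℝ) + 1 := by positivity
    norm_num
    exact mul_le_mul_of_nonneg_right (mul_le_mul_of_nonneg_left h3 (by norm_num)) h4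
  exact_mod_cast h2

theorem UPc_sub_NPc (m s : ℕ → ℕ) : UPc m s ⊆ NPc m s := by
  rintro f ⟨c, hc⟩
  refine ⟨c, fun n => ?_⟩
  obtain ⟨b, hb, φ, h1, h2⟩ := hc n
  refine ⟨b, hb, φ, h1, fun x => ⟨fun hx => ((h2 x).1 hx).exists, ?_⟩⟩
  rintro ⟨y, hy⟩
  by_contra hx
  rw [(h2 x).2 hx y] at hy
  exact Bool.false_ne_true hy

theorem NPc_sub_THRc (m s : ℕ → ℕ) : NPc m s ⊆ THRc m s := by
  rintro f ⟨c, hc⟩
  refine ⟨c, fun n => ?_⟩
  obtain ⟨b, hb, φ, h1, h2⟩ := hc n
  refine ⟨b, hb, φ, h1, fun _ => 1, 0, fun x => ?_⟩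
  rw [h2 x]
  constructor
  · rintro ⟨y, hy⟩
    refine Finset.sum_pos' (fun y _ => by positivity) ⟨y, Finset.mem_univ _, ?_⟩
    rw [if_pos hy]; norm_num
  · intro hpos
    by_contra hcon
    push Not at hcon
    have : ∑ y : Fin b → Bool, (1 : ℝ) * (if φ.eval (Sum.elim x y) = true then 1 else 0) = 0 :=
      Finset.sum_eq_zero fun y _ => by rw [if_neg (hcon y), mul_zero]
    rw [this] at hpos
    exact lt_irrefl _ hpos

theorem NPc_mono {m m' s : ℕ → ℕ} (h : ∀ n, m n ≤ m' n) : NPc m s ⊆ NPc m' s := by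
  rintro f ⟨c, hc⟩
  refine ⟨c, fun n => ?_⟩
  obtain ⟨b, hb, h1⟩ := hc n
  exact ⟨b, hb.trans (Nat.mul_le_mul_left _ (h n)), h1⟩

/-- more guess bits help: main separation -/
theorem separation (m m' s : ℕ → ℕ) (hs : ∀ᶠ n in atTop, m' n ≤ s n)
    (hsn : ∀ᶠ n in atTop, s n * m' n ≤ n ^ 2)
    (hm : ∀ K : ℕ, ∀ᶠ n in atTop, K * (m n + 1) ≤ m' n) :
    ∃ f ∈ UPc m' s, f ∉ THRc m s := by
  refine ⟨fun n => par (min n (min (s n) (Nat.sqrt (s n * m' n)))) n, ⟨256, fun n => ?_⟩, ?_⟩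
  · obtain ⟨N, hN⟩ : ∃ N, N = min n (min (s n) (Nat.sqrt (s n * m' n))) := ⟨_, rfl⟩
    beta_reduce
    rw [← hN]
    have hNn : N ≤ n := by rw [hN]; exact min_le_left _ _
    have hNs : N ≤ s n := by rw [hN]; exact (min_le_right _ _).trans (min_le_left _ _)
    have hNr : N ≤ Nat.sqrt (s n * m' n) := by
      rw [hN]; exact (min_le_right _ _).trans (min_le_right _ _)
    rcases Nat.eq_zero_or_pos N with h0 | h0
    · refine ⟨0, Nat.zero_le _, .const false, Nat.zero_le _, fun x => ⟨fun hx => ?_, fun _ _ => rfl⟩⟩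
      rw [h0] at hx
      unfold par at hx
      simp at hx
    · obtain ⟨b, hb, φ, h1, h2⟩ := par_upper (m := m' n) hNn h0
      refine ⟨b, hb.trans (Nat.le_mul_of_pos_left _ (by norm_num)), φ, ?_, h2⟩
      have hN2 : N ^ 2 ≤ s n * m' n :=
        (Nat.pow_le_pow_left hNr 2).trans (Nat.sqrt_le' _)
      rcases h1 with h1 | h1
      · omega
      · have h3 : (m' n + 1) * φ.size ≤ (m' n + 1) * (64 * s n) := by
          calc (m' n + 1) * φ.size ≤ 64 * N ^ 2 := h1
            _ ≤ 64 * (s n * m' n) := Nat.mul_le_mul_left _ hN2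
            _ ≤ (m' n + 1) * (64 * s n) := by nlinarith
        have h4 := Nat.le_of_mul_le_mul_left h3 (Nat.succ_pos _)
        omega
  · rintro ⟨c, hc⟩
    obtain ⟨K, hK⟩ : ∃ K, K = 2400000000000 * c * (c + 1) + 1 := ⟨_, rfl⟩
    obtain ⟨n, hn, hsn', hs'⟩ := ((hm K).and (hsn.and hs)).exists
    have hm1 : 1 ≤ m' n := by
      refine le_trans ?_ hn
      rw [hK]
      exact Nat.one_le_iff_ne_zero.2 (by positivity)
    have hs1 : 1 ≤ s n := hm1.trans hs'
    obtain ⟨N, hN⟩ : ∃ N, N = Nat.sqrt (s n * m' n) := ⟨_, rfl⟩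
    have hNn : N ≤ n := by
      rw [hN]
      exact (Nat.sqrt_le_sqrt hsn').trans (Nat.sqrt_eq' n).le
    have hNs : N ≤ s n := by
      have h4 : s n * m' n ≤ s n ^ 2 := by
        rw [sq]; exact Nat.mul_le_mul_left _ hs'
      rw [hN]
      exact (Nat.sqrt_le_sqrt h4).trans (Nat.sqrt_eq' _).le
    have hN0 : 0 < N := by
      rw [hN, Nat.sqrt_pos]
      positivity
    have hN2 : s n * m' n ≤ 4 * N ^ 2 := by
      have h1 : s n * m' n < (N + 1) ^ 2 := by
        rw [hN, sq]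
        exact Nat.lt_succ_sqrt _
      nlinarith
    have hNmin : min n (min (s n) (Nat.sqrt (s n * m' n))) = N := by
      rw [← hN, min_eq_right hNs, min_eq_right hNn]
    obtain ⟨b, hb, φ, h1, a, θ, h2⟩ := hc n
    beta_reduce at h2
    rw [hNmin] at h2
    have h3 := par_lower hNn hN0 φ a θ h2
    have h4 : s n * m' n ≤ s n * (2400000000000 * c * (c + 1) * (m n + 1)) := by
      calc s n * m' n ≤ 4 * N ^ 2 := hN2
        _ ≤ 4 * (600000000000 * φ.size * (b + 1)) := Nat.mul_le_mul_left _ h3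
        _ ≤ 4 * (600000000000 * (c * s n) * ((c + 1) * (m n + 1))) := by
            have h5 : b + 1 ≤ (c + 1) * (m n + 1) := by nlinarith
            gcongr
        _ = _ := by ring
    have h5 := Nat.le_of_mul_le_mul_left h4 hs1
    have h6 : K * (m n + 1) ≤ 2400000000000 * c * (c + 1) * (m n + 1) := hn.trans h5
    rw [hK] at h6
    nlinarith

/-- the hierarchy is strict -/
theorem hierarchy (m m' s : ℕ → ℕ) (hmm : ∀ n, m n ≤ m' n) (hs : ∀ᶠ n in atTop, m' n ≤ s n)
    (hsn : ∀ᶠ n in atTop, s n * m' n ≤ n ^ 2)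
    (hm : ∀ K : ℕ, ∀ᶠ n in atTop, K * (m n + 1) ≤ m' n) :
    NPc m s ⊂ NPc m' s ∧ ∃ f ∈ UPc m' s, f ∉ THRc m s := by
  obtain ⟨f, hf1, hf2⟩ := separation m m' s hs hsn hm
  refine ⟨⟨NPc_mono hmm, fun h => hf2 ?_⟩, f, hf1, hf2⟩
  exact NPc_sub_THRc m s (h (UPc_sub_NPc m' s hf1))

end H632.GH
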